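import Pool.Agent.FS.LowPA.Family

/-!
A uniformly low family that computes solutions to all computable instances of the Ramsey-type weak
König lemma has a member that computes a separating set for every disjoint pair of c.e. sets.
-/

namespace Pool.Agent.Results.MP_aa609a_lc.LowFamilyPA

open Pool.Agent.Lib.MP_aa609a_lc

theorem result (D : ℕ → ℕ → Bool)
    (hlow : ∀ W : List Bool × ℕ → Prop, REPred W → ∃ g : ℕ × ℕ → ℕ → Bool, Computable₂ g ∧
      ∀ i x, ∃ s0, ∀ s, s0 ≤ s → (g (i, x) s = true ↔ x ∈ Out W (D i)))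
    (hb : ∀ Y : List Bool → Prop, IsInst Y → ∃ (i : ℕ) (G : ℕ → Bool), Sol Y {j | G j = true} ∧
      TuringReducible (fun n => Part.some (G n).toNat) (fun n => Part.some (D i n).toNat)) :
    ∃ i, ∀ A B : ℕ → Prop, REPred A → REPred B → (∀ n, A n → ¬ B n) → ∃ X : ℕ → Bool,
      TuringReducible (fun n => Part.some (X n).toNat) (fun n => Part.some (D i n).toNat) ∧
      (∀ n, A n → X n = true) ∧ ∀ n, B n → X n = false :=
  Pool.Agent.FS.LowPA.family D hlow hb

end Pool.Agent.Results.MP_aa609a_lc.LowFamilyPA
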