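import Pool.Agent.Lib.MP_aa609a_lc.TMain

/-!
One sequence of computable trees defeats every computable instance of the Ramsey-type weak König
lemma against all reductions given by closed pieces with finitely many operators each, of which a
bounded number may be wrong (finite advice, finite teams of learners).
-/

namespace Pool.Agent.Results.MP_aa609a_lc.TeamPieces

open Pool.Agent.Lib.MP_aa609a_lc

theorem result : ∃ Y : ℕ → List Bool → Prop, (∀ m, IsInst (Y m)) ∧ ∀ L : ℕ, ∃ J : ℕ,
    ∀ X : List Bool → Prop, IsInst X → ∃ m < J, ∀ (A : ℕ → Set (ℕ → Bool)) (k : ℕ → ℕ)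
      (W : ℕ → ℕ → List Bool × ℕ → Prop), (∀ n, IsClosed (A n)) → (∀ n i, REPred (W n i)) →
      (∀ H : ℕ → Bool, Sol X {i | H i = true} →
        {n | H ∈ A n ∧ ∀ i < k n, ¬ Sol (Y m) (Out (W n i) H)}.encard ≤ L) →
      ∃ H : ℕ → Bool, Sol X {i | H i = true} ∧
        ∀ n, H ∈ A n → ∀ i < k n, ¬ Sol (Y m) (Out (W n i) H) :=
  ⟨Team.Y, Team.inst_Y, Team.team⟩

end Pool.Agent.Results.MP_aa609a_lc.TeamPieces
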